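import Pool.Agent.P.MP_318c20_al.UB.Main

open Pool.Agent.P.MP_318c20_al

/-- Some group acts geometrically on a family, indexed by the real numbers, of proper injective
spaces of finite combinatorial dimension whose boundaries (for their convex bicombings) are pairwise
non-homeomorphic. -/
theorem Pool.Agent.Results.MP_318c20_al.ContinuumBoundaries.result :
    ∃ (G : Type) (_ : Group G) (X : ℝ → Type) (_ : ∀ t, MetricSpace (X t))
      (_ : ∀ t, MulAction G (X t)),
      (∀ t, Admissible (X t) ∧ Geometric G (X t) ∧
        ∃ σ : X t → X t → ℝ → X t, IsConvexBicombing σ) ∧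
      ∀ s t, s ≠ t → ∀ (σ : X s → X s → ℝ → X s) (τ : X t → X t → ℝ → X t),
        IsConvexBicombing σ → IsConvexBicombing τ → ∀ (o : X s) (o' : X t),
          IsEmpty (Boundary σ o ≃ₜ Boundary τ o') :=
  UB.main
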